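import Mathlib

/-!
# Mobile general position number of the join with a single vertex

For every finite graph `G` we prove `mob (G ∨ K₁) ≥ ⌈ω(G)/2⌉ + 1`.
In particular `ω(G) ≥ 3` forces `mob (G ∨ K₁) ≥ 3`, which answers the question in the negative.
-/

set_option autoImplicit false

namespace Pool.Agent.Results.MP_73e407_co.MobConeLowerBound

open Finset

variable {V : Type*}

/-- `x`, `y`, `z` lie on a common shortest path (geodesic) of `G`. -/
def OnCommonGeodesic (G : SimpleGraph V) (x y z : V) : Prop :=
  ∃ (a b : V) (p : G.Walk a b), p.IsPath ∧ p.length = G.dist a b ∧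
    x ∈ p.support ∧ y ∈ p.support ∧ z ∈ p.support

/-- `S` is a general position set of `G`: no three (distinct) vertices of `S` lie on a common
shortest path of `G`. -/
def IsGeneralPosition (G : SimpleGraph V) (S : Finset V) : Prop :=
  ∀ x ∈ S, ∀ y ∈ S, ∀ z ∈ S, x ≠ y → y ≠ z → x ≠ z → ¬ OnCommonGeodesic G x y z

/-- A legal move: one robot goes from its vertex `u ∈ S` to an adjacent unoccupied vertex `v`, and
the new set of occupied vertices is again a general position set. -/
def LegalMove [DecidableEq V] (G : SimpleGraph V) (S T : Finset V) : Prop :=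
  ∃ u ∈ S, ∃ v ∉ S, G.Adj u v ∧ T = insert v (S.erase u) ∧ IsGeneralPosition G T

/-- `S` is a mobile general position set: it is in general position and some finite sequence of
legal moves `S = T₀ → T₁ → ⋯ → Tₘ` is such that every vertex lies in some `Tᵢ`. -/
def IsMobile [DecidableEq V] (G : SimpleGraph V) (S : Finset V) : Prop :=
  IsGeneralPosition G S ∧ ∃ l : List (Finset V),
    List.IsChain (LegalMove G) (S :: l) ∧ ∀ v : V, ∃ T ∈ S :: l, v ∈ T

/-- The mobile general position number: the largest size of a mobile general position set. -/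
noncomputable def mob [DecidableEq V] (G : SimpleGraph V) : ℕ :=
  sSup {k : ℕ | ∃ S : Finset V, IsMobile G S ∧ S.card = k}

/-- The join `G ∨ K₁`: the new vertex `none` is adjacent to every vertex of `G`. -/
def joinK1 (G : SimpleGraph V) : SimpleGraph (Option V) where
  Adj x y := match x, y with
    | some u, some v => G.Adj u v
    | some _, none => True
    | none, some _ => True
    | none, none => False
  symm := ⟨by
    rintro (_ | u) (_ | v) h
    · exact h
    · trivial
    · trivial
    · exact G.symm.symm _ _ h⟩
  loopless := ⟨by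
    rintro (_ | u) h
    · exact h
    · exact G.loopless.irrefl _ h⟩

theorem adj_some_some (G : SimpleGraph V) (u v : V) :
    (joinK1 G).Adj (some u) (some v) ↔ G.Adj u v := Iff.rfl

theorem adj_none_some (G : SimpleGraph V) (v : V) : (joinK1 G).Adj none (some v) := trivial

theorem adj_some_none (G : SimpleGraph V) (v : V) : (joinK1 G).Adj (some v) none := trivial

theorem dist_le_two (G : SimpleGraph V) (a b : Option V) : (joinK1 G).dist a b ≤ 2 := by
  rcases a with _ | u <;> rcases b with _ | v
  · simp
  · exact le_trans (SimpleGraph.dist_le (SimpleGraph.Walk.cons (adj_none_some G v) .nil)) (by simp)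
  · exact le_trans (SimpleGraph.dist_le (SimpleGraph.Walk.cons (adj_some_none G u) .nil)) (by simp)
  · exact le_trans (SimpleGraph.dist_le (SimpleGraph.Walk.cons (adj_some_none G u)
      (.cons (adj_none_some G v) .nil))) (by simp)

/-- A set on which adjacency of `G ∨ K₁` is transitive is in general position. -/
theorem isGeneralPosition_of_trans (G : SimpleGraph V) (S : Finset (Option V))
    (h : ∀ x ∈ S, ∀ y ∈ S, ∀ z ∈ S, (joinK1 G).Adj x y → (joinK1 G).Adj y z → x ≠ z →
      (joinK1 G).Adj x z) : IsGeneralPosition (joinK1 G) S := by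
  classical
  intro x hx y hy z hz hxy hyz hxz
  rintro ⟨a, b, p, hp, hlen, hxp, hyp, hzp⟩
  have hd := dist_le_two G a b
  rw [← hlen] at hd
  cases p with
  | nil => 
    simp at hxp hyp
    exact hxy (hxp.trans hyp.symm)
  | cons hab q =>
    cases q with
    | nil =>
      simp at hxp hyp hzp
      rcases hxp with rfl | rfl <;> rcases hyp with rfl | rfl <;> rcases hzp with rfl | rfl <;>
        first | exact hxy rfl | exact hyz rfl | exact hxz rfl
    | cons hbc r =>
      cases r with
      | nil =>
        rename_i m
        have hane : a ≠ b := by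
          intro h1
          subst h1
          simp at hlen
        have hall : ∀ w, w = a ∨ w = m ∨ w = b → w ∈ S := by
          simp only [SimpleGraph.Walk.support_cons, SimpleGraph.Walk.support_nil,
            List.mem_cons, List.not_mem_nil, or_false] at hxp hyp hzp
          intro w hw
          rcases hxp with rfl | rfl | rfl <;> rcases hyp with rfl | rfl | rfl <;>
            rcases hzp with rfl | rfl | rfl <;>
            first
            | exact absurd rfl hxy
            | exact absurd rfl hyz
            | exact absurd rfl hxz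
            | (rcases hw with rfl | rfl | rfl <;> assumption)
        have hadj := h a (hall a (Or.inl rfl)) m (hall m (Or.inr (Or.inl rfl))) b
          (hall b (Or.inr (Or.inr rfl))) hab hbc hane
        have hd1 : (joinK1 G).dist a b ≤ 1 :=
          le_trans (SimpleGraph.dist_le (SimpleGraph.Walk.cons hadj .nil)) (by simp)
        rw [← hlen] at hd1
        simp at hd1
      | cons hcd s =>
        simp at hd

section tours

variable {α : Type*} {R : α → α → Prop}

theorem chain_concat (a b : α) (l l' : List α) (h : List.IsChain R (a :: l))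
    (hb : List.getLast (a :: l) (List.cons_ne_nil _ _) = b) (h' : List.IsChain R (b :: l')) :
    List.IsChain R (a :: (l ++ l')) ∧
    List.getLast (a :: (l ++ l')) (List.cons_ne_nil _ _) =
      List.getLast (b :: l') (List.cons_ne_nil _ _) ∧
    (∀ T ∈ a :: l, T ∈ a :: (l ++ l')) ∧ (∀ T ∈ b :: l', T ∈ a :: (l ++ l')) := by
  subst hb
  induction l generalizing a with
  | nil => simpa using h'
  | cons c l ih =>
    have h1 : List.IsChain R (c :: l) := by
      have := h
      simp only [List.isChain_cons_cons] at this
      exact this.2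
    have h2 : R a c := by
      have := h
      simp only [List.isChain_cons_cons] at this
      exact this.1
    have h3 : List.getLast (a :: c :: l) (List.cons_ne_nil _ _) =
      List.getLast (c :: l) (List.cons_ne_nil _ _) := List.getLast_cons_cons
    rw [h3] at h'
    obtain ⟨i1, i2, i3, i4⟩ := ih c h1 h'
    refine ⟨?_, ?_, ?_, ?_⟩
    · rw [List.cons_append, List.isChain_cons_cons]
      exact ⟨h2, i1⟩
    · rw [h3, ← i2]
      exact List.getLast_cons_cons
    · intro T hT
      rcases List.mem_cons.mp hT with rfl | hT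
      · exact List.mem_cons_self
      · exact List.mem_cons_of_mem _ (i3 T hT)
    · intro T hT
      rw [h3] at hT
      exact List.mem_cons_of_mem _ (i4 T hT)

theorem tour_exists {β : Type*} [Finite β] (S : α) (mem : β → α → Prop)
    (H : ∀ v : β, ∃ T, mem v T ∧ Relation.ReflTransGen R S T ∧ Relation.ReflTransGen R T S) :
    ∃ l : List α, List.IsChain R (S :: l) ∧ ∀ v, ∃ T ∈ S :: l, mem v T := by
  classical
  have := Fintype.ofFinite β
  have key : ∀ W : Finset β, ∃ l : List α, List.IsChain R (S :: l) ∧
      List.getLast (S :: l) (List.cons_ne_nil _ _) = S ∧ ∀ v ∈ W, ∃ T ∈ S :: l, mem v T := by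
    intro W
    induction W using Finset.induction_on with
    | empty => exact ⟨[], List.IsChain.singleton _, rfl, by simp⟩
    | insert v W hv ih =>
      obtain ⟨l, hl1, hl2, hl3⟩ := ih
      obtain ⟨T, hT, h1, h2⟩ := H v
      obtain ⟨l1, a1, a2⟩ := List.exists_isChain_cons_of_relationReflTransGen h1
      obtain ⟨l2, b1, b2⟩ := List.exists_isChain_cons_of_relationReflTransGen h2
      obtain ⟨c1, c2, c3, c4⟩ := chain_concat T S l2 l b1 b2 hl1
      obtain ⟨d1, d2, d3, d4⟩ := chain_concat S T l1 (l2 ++ l) a1 a2 c1
      refine ⟨l1 ++ (l2 ++ l), d1, ?_, ?_⟩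
      · rw [d2, c2, hl2]
      · intro w hw
        rcases Finset.mem_insert.mp hw with rfl | hw
        · exact ⟨T, d4 T List.mem_cons_self, hT⟩
        · obtain ⟨T', hT', hm⟩ := hl3 w hw
          exact ⟨T', d4 T' (c4 T' hT'), hm⟩
  obtain ⟨l, h1, -, h3⟩ := key Finset.univ
  exact ⟨l, h1, fun v => h3 v (Finset.mem_univ v)⟩

end tours

variable [DecidableEq V]

/-- The configuration with one robot at the new vertex and the others at `K`. -/
def conf (K : Finset V) : Finset (Option V) := insert none (K.map Function.Embedding.some)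

theorem mem_conf_some (K : Finset V) (v : V) : some v ∈ conf K ↔ v ∈ K := by
  simp [conf]

theorem none_mem_conf (K : Finset V) : none ∈ conf K := by
  simp [conf]

theorem card_conf (K : Finset V) : (conf K).card = K.card + 1 := by
  rw [conf, Finset.card_insert_of_notMem (by simp), Finset.card_map]

theorem conf_genPos (G : SimpleGraph V) (K : Finset V) (hK : G.IsClique K) :
    IsGeneralPosition (joinK1 G) (conf K) := by
  apply isGeneralPosition_of_trans
  rintro (_ | x) hx (_ | y) hy (_ | z) hz hxy hyz hxz
  · exact hxy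
  · trivial
  · exact absurd rfl hxz
  · trivial
  · trivial
  · rw [mem_conf_some] at hx hz
    exact hK hx hz (fun h => hxz (congrArg some h))
  · trivial
  · rw [mem_conf_some] at hx hz
    exact hK hx hz (fun h => hxz (congrArg some h))

theorem conf_move (G : SimpleGraph V) (K : Finset V) (u v : V) (hu : u ∈ K) (hv : v ∉ K)
    (huv : G.Adj u v) (hK : G.IsClique (insert v (K.erase u) : Finset V)) :
    LegalMove (joinK1 G) (conf K) (conf (insert v (K.erase u))) := by
  refine ⟨some u, (mem_conf_some K u).2 hu, some v, fun h => hv ((mem_conf_some K v).1 h), huv,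
    ?_, conf_genPos G _ hK⟩
  ext (_ | w)
  · simp [none_mem_conf]
  · simp [mem_conf_some]

/-- Inside a clique `Q`, the robots other than the one at the new vertex can be moved from any
`t`-subset to any other `t`-subset. -/
theorem conf_reach (G : SimpleGraph V) (Q : Finset V) (hQ : G.IsClique Q) :
    ∀ (n : ℕ) (K K' : Finset V), K ⊆ Q → K' ⊆ Q → K.card = K'.card → (K' \ K).card = n →
      Relation.ReflTransGen (LegalMove (joinK1 G)) (conf K) (conf K') := by
  intro n
  induction n with
  | zero =>
    intro K K' hK hK' hc hn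
    have h1 : K' ⊆ K := by
      rw [Finset.card_eq_zero, Finset.sdiff_eq_empty_iff_subset] at hn
      exact hn
    have h2 : K' = K := Finset.eq_of_subset_of_card_le h1 hc.le
    rw [h2]
  | succ n ih =>
    intro K K' hK hK' hc hn
    have h1 : (K' \ K).Nonempty := by
      rw [← Finset.card_pos, hn]; omega
    have h2 : (K \ K').card = n + 1 := by
      rw [← hn]
      exact Finset.card_sdiff_comm hc
    have h3 : (K \ K').Nonempty := by
      rw [← Finset.card_pos, h2]; omega
    obtain ⟨v, hv⟩ := h1
    obtain ⟨u, hu⟩ := h3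
    rw [Finset.mem_sdiff] at hu hv
    have huv : u ≠ v := fun h => hv.2 (h ▸ hu.1)
    have hsub : insert v (K.erase u) ⊆ Q := by
      intro w hw
      rcases Finset.mem_insert.mp hw with rfl | hw
      · exact hK' hv.1
      · exact hK (Finset.mem_of_mem_erase hw)
    have hmove := conf_move G K u v hu.1 hv.2 (hQ (hK hu.1) (hK' hv.1) huv)
      (hQ.subset (by exact_mod_cast hsub))
    refine Relation.ReflTransGen.head hmove (ih _ K' hsub hK' ?_ ?_)
    · rw [Finset.card_insert_of_notMem (fun h => hv.2 (Finset.mem_of_mem_erase h)),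
        Finset.card_erase_of_mem hu.1, ← hc]
      have : 0 < K.card := Finset.card_pos.mpr ⟨u, hu.1⟩
      omega
    · have h4 : K' \ insert v (K.erase u) = (K' \ K).erase v := by
        ext w
        simp only [Finset.mem_sdiff, Finset.mem_insert, Finset.mem_erase, not_or, not_and, ne_eq]
        constructor
        · rintro ⟨a, b, c⟩
          exact ⟨b, a, fun h => (c (fun h' => hu.2 (h' ▸ a))) h⟩
        · rintro ⟨a, b, c⟩
          exact ⟨b, a, fun _ => c⟩
      rw [h4, Finset.card_erase_of_mem (Finset.mem_sdiff.mpr hv), hn]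
      rfl

/-- The configuration with one robot at `w` and the others at `K`. -/
def conf' (w : V) (K : Finset V) : Finset (Option V) :=
  insert (some w) (K.map Function.Embedding.some)

theorem mem_conf'_some (w : V) (K : Finset V) (v : V) : some v ∈ conf' w K ↔ v = w ∨ v ∈ K := by
  simp [conf']

theorem none_notMem_conf' (w : V) (K : Finset V) : none ∉ conf' w K := by
  simp [conf']

theorem conf'_genPos (G : SimpleGraph V) (w : V) (K : Finset V) (hK : G.IsClique K)
    (hw : (∀ x ∈ K, G.Adj w x) ∨ (∀ x ∈ K, ¬ G.Adj w x)) :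
    IsGeneralPosition (joinK1 G) (conf' w K) := by
  apply isGeneralPosition_of_trans
  rintro (_ | x) hx (_ | y) hy (_ | z) hz hxy hyz hxz
  · exact hxy
  · trivial
  · exact absurd rfl hxz
  · trivial
  · trivial
  · exact absurd hy (none_notMem_conf' w K)
  · trivial
  · rw [mem_conf'_some] at hx hy hz
    have hxy' : G.Adj x y := hxy
    have hyz' : G.Adj y z := hyz
    have hxz' : x ≠ z := fun h => hxz (congrArg some h)
    show G.Adj x z
    rcases hx with rfl | hx <;> rcases hz with rfl | hz
    · exact absurd rfl hxz'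
    · rcases hw with hw | hw
      · exact hw z hz
      · rcases hy with rfl | hy
        · exact hyz'
        · exact absurd hxy' (hw y hy)
    · rcases hw with hw | hw
      · exact (hw x hx).symm
      · rcases hy with rfl | hy
        · exact hxy'
        · exact absurd hyz'.symm (hw y hy)
    · exact hK hx hz hxz'

theorem conf_to_conf' (G : SimpleGraph V) (w : V) (K : Finset V) (hK : G.IsClique K)
    (hwK : w ∉ K) (hw : (∀ x ∈ K, G.Adj w x) ∨ (∀ x ∈ K, ¬ G.Adj w x)) :
    LegalMove (joinK1 G) (conf K) (conf' w K) := by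
  refine ⟨none, none_mem_conf K, some w, fun h => hwK ((mem_conf_some K w).1 h),
    adj_none_some G w, ?_, conf'_genPos G w K hK hw⟩
  ext (_ | v)
  · simp [none_notMem_conf']
  · simp [mem_conf_some, mem_conf'_some]

theorem conf'_to_conf (G : SimpleGraph V) (w : V) (K : Finset V) (hK : G.IsClique K)
    (hwK : w ∉ K) :
    LegalMove (joinK1 G) (conf' w K) (conf K) := by
  refine ⟨some w, (mem_conf'_some w K w).2 (Or.inl rfl), none, none_notMem_conf' w K,
    adj_some_none G w, ?_, conf_genPos G K hK⟩
  ext (_ | v)
  · simp [none_mem_conf]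
  · simp only [mem_conf_some, Finset.mem_insert, reduceCtorEq, Finset.mem_erase, ne_eq,
      Option.some.injEq, mem_conf'_some, false_or]
    constructor
    · intro h
      exact ⟨fun h' => hwK (h' ▸ h), Or.inr h⟩
    · rintro ⟨h1, h2 | h2⟩
      · exact absurd h2 h1
      · exact h2

/-- If `Q` is a clique of size `m ≥ 1`, then `⌈m/2⌉ + 1` robots can be used. -/
theorem conf_mobile [Fintype V] (G : SimpleGraph V) (Q K : Finset V) (hQ : G.IsClique Q)
    (hKQ : K ⊆ Q) (hK : K.card = (Q.card + 1) / 2) (hpos : 0 < Q.card) :
    IsMobile (joinK1 G) (conf K) := by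
  classical
  refine ⟨conf_genPos G K (hQ.subset (by exact_mod_cast hKQ)), ?_⟩
  apply tour_exists
  have hKpos : 0 < K.card := by omega
  rintro (_ | w)
  · exact ⟨conf K, none_mem_conf K, .refl, .refl⟩
  · by_cases hwQ : w ∈ Q
    · -- move a robot onto `w` inside the clique
      obtain ⟨K', hK'1, hK'2, hK'3⟩ := Finset.exists_subsuperset_card_eq
        (s := {w}) (t := Q) (n := K.card) (by simpa using hwQ) (by simpa using hKpos)
        (Finset.card_le_card hKQ)
      refine ⟨conf K', (mem_conf_some K' w).2 (hK'1 (by simp)), ?_, ?_⟩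
      · exact conf_reach G Q hQ _ K K' hKQ hK'2 hK'3.symm rfl
      · exact conf_reach G Q hQ _ K' K hK'2 hKQ hK'3 rfl
    · -- pigeonhole
      have hsplit : (Q.filter (fun x => G.Adj w x)).card +
          (Q.filter (fun x => ¬ G.Adj w x)).card = Q.card :=
        Finset.card_filter_add_card_filter_not _
      obtain ⟨K', hK'Q, hK'c, hK'w⟩ : ∃ K' : Finset V, K' ⊆ Q ∧ K'.card = K.card ∧
          ((∀ x ∈ K', G.Adj w x) ∨ (∀ x ∈ K', ¬ G.Adj w x)) := by
        by_cases hcase : K.card ≤ (Q.filter (fun x => G.Adj w x)).card
        · obtain ⟨K', h1, h2⟩ := Finset.exists_subset_card_eq hcase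
          exact ⟨K', h1.trans (Finset.filter_subset _ _), h2,
            Or.inl (fun x hx => (Finset.mem_filter.mp (h1 hx)).2)⟩
        · obtain ⟨K', h1, h2⟩ := Finset.exists_subset_card_eq
            (s := Q.filter (fun x => ¬ G.Adj w x)) (n := K.card) (by omega)
          exact ⟨K', h1.trans (Finset.filter_subset _ _), h2,
            Or.inr (fun x hx => (Finset.mem_filter.mp (h1 hx)).2)⟩
      have hK'clique : G.IsClique K' := hQ.subset (by exact_mod_cast hK'Q)
      have hwK' : w ∉ K' := fun h => hwQ (hK'Q h)
      refine ⟨conf' w K', (mem_conf'_some w K' w).2 (Or.inl rfl), ?_, ?_⟩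
      · exact (conf_reach G Q hQ _ K K' hKQ hK'Q hK'c.symm rfl).tail
          (conf_to_conf' G w K' hK'clique hwK' hK'w)
      · exact Relation.ReflTransGen.head (conf'_to_conf G w K' hK'clique hwK')
          (conf_reach G Q hQ _ K' K hK'Q hKQ hK'c rfl)

theorem bddAbove_mobile {W : Type*} [Fintype W] [DecidableEq W] (G : SimpleGraph W) :
    BddAbove {k : ℕ | ∃ S : Finset W, IsMobile G S ∧ S.card = k} := by
  refine ⟨Fintype.card W, ?_⟩
  rintro k ⟨S, -, rfl⟩
  exact Finset.card_le_univ S

omit [DecidableEq V] in
/-- For every finite graph `G`, `mob (G ∨ K₁) ≥ ⌈ω(G)/2⌉ + 1`. In particular, `ω(G) ≥ 3` implies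
`mob (G ∨ K₁) ≥ 3`, so no graph with `ω(G) ≥ 3` has `mob (G ∨ K₁) = 2`. -/
theorem result [Fintype V] [DecidableEq V] (G : SimpleGraph V) :
    (G.cliqueNum + 1) / 2 + 1 ≤ mob (joinK1 G) := by
  classical
  obtain ⟨Q, hQ, hQc⟩ := G.exists_isNClique_cliqueNum
  obtain ⟨K, hKQ, hK⟩ := Finset.exists_subset_card_eq (s := Q) (n := (Q.card + 1) / 2) (by omega)
  have hcard : (G.cliqueNum + 1) / 2 + 1 = (conf K).card := by
    rw [card_conf, hK, hQc]
  rw [hcard]
  refine le_csSup (bddAbove_mobile _) ⟨conf K, ?_, rfl⟩
  by_cases hpos : 0 < Q.card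
  · exact conf_mobile G Q K hQ hKQ hK hpos
  · -- the graph `G` has no vertex
    have h0 : G.cliqueNum = 0 := by rw [← hQc]; omega
    have hempty : IsEmpty V := by
      by_contra hne
      rw [not_isEmpty_iff] at hne
      obtain ⟨v⟩ := hne
      have h1 : G.IsClique (({v} : Finset V) : Set V) := by simp
      have h2 := SimpleGraph.IsClique.card_le_cliqueNum (tc := h1)
      rw [h0] at h2
      simp at h2
    have hK0 : K = ∅ := Finset.eq_empty_of_isEmpty K
    subst hK0
    refine ⟨conf_genPos G ∅ (by simp), [], List.IsChain.singleton _, ?_⟩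
    rintro (_ | v)
    · exact ⟨conf ∅, List.mem_cons_self, none_mem_conf _⟩
    · exact hempty.elim v

end Pool.Agent.Results.MP_73e407_co.MobConeLowerBound
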